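import Pool.Agent.G02.StmtsR

/-!
# Squad G02, row TR2: the points of order two of a curve with one rational 2-torsion point
-/

set_option autoImplicit false

namespace Pool.Agent.G02.H21

open Polynomial Pool.Agent.NJ

section

variable {K : Type} [Field K] (W : WeierstrassCurve K) (e a b : K)

/-- `(2 y + a₁ x + a₃)² = 4 X (X² + a X + b)` on the curve -/
theorem tr2_sq (hR : Rt1 W e a b) (x y : K) :
    (2 * y + W.a₁ * x + W.a₃) ^ 2 =
      4 * (y ^ 2 + W.a₁ * x * y + W.a₃ * y - (x ^ 3 + W.a₂ * x ^ 2 + W.a₄ * x + W.a₆)) +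
        4 * ((x - e) * ((x - e) ^ 2 + a * (x - e) + b)) := by
  obtain ⟨h2, h4, h6⟩ := hR
  simp only [WeierstrassCurve.b₂, WeierstrassCurve.b₄, WeierstrassCurve.b₆] at h2 h4 h6
  linear_combination x ^ 2 * h2 + 2 * x * h4 + h6

theorem tr2_ns [CharZero K] (hR : Rt1 W e a b) (hb : b ≠ 0) :
    W.toAffine.Nonsingular e (-(W.a₁ * e + W.a₃) / 2) := by
  have h20 : (2 : K) ≠ 0 := two_ne_zero
  have h40 : (4 : K) ≠ 0 := by norm_num
  rw [WeierstrassCurve.Affine.nonsingular_iff']
  have hy : 2 * (-(W.a₁ * e + W.a₃) / 2) + W.a₁ * e + W.a₃ = 0 := by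
    field_simp
    ring
  refine ⟨?_, Or.inl ?_⟩
  · rw [WeierstrassCurve.Affine.equation_iff']
    have h1 := tr2_sq W e a b hR e (-(W.a₁ * e + W.a₃) / 2)
    rw [hy, sub_self, zero_mul, mul_zero, add_zero, zero_pow two_ne_zero] at h1
    exact (mul_eq_zero.1 h1.symm).resolve_left h40
  · intro h
    obtain ⟨h2, h4, -⟩ := hR
    simp only [WeierstrassCurve.b₂, WeierstrassCurve.b₄] at h2 h4
    have h7 : 4 * b = 0 := by
      field_simp at h
      linear_combination (-2) * h - 2 * e * h2 - 2 * h4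
    exact hb ((mul_eq_zero.1 h7).resolve_left h40)

theorem tr2_y [CharZero K] (hR : Rt1 W e a b) (y : K) (hy : W.toAffine.Nonsingular e y) :
    2 * y + W.a₁ * e + W.a₃ = 0 := by
  have h0 := (WeierstrassCurve.Affine.equation_iff' (W := W.toAffine) _ _).1 hy.1
  have h1 := tr2_sq W e a b hR e y
  have h3 : (2 * y + W.a₁ * e + W.a₃) ^ 2 = 0 := by
    rw [h1]
    have h4 : y ^ 2 + W.a₁ * e * y + W.a₃ * y -
      (e ^ 3 + W.a₂ * e ^ 2 + W.a₄ * e + W.a₆) = 0 := h0
    rw [h4]
    ring
  exact pow_eq_zero_iff two_ne_zero |>.1 h3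

end

theorem tr2 : Tr2Stmt := by
  intro K _ _ _ W e a b hR hb0 hns
  have h20 : (2 : K) ≠ 0 := two_ne_zero
  have ha : ∀ P : W.toAffine.Point, P + P = 0 ↔
      P = 0 ∨ ∃ (y : K) (h : W.toAffine.Nonsingular e y), P = .some e y h := by
    intro P
    rw [add_eq_zero_iff_eq_neg]
    rcases P with _ | ⟨x, y, h⟩
    · exact ⟨fun _ => Or.inl rfl, fun _ => rfl⟩
    · rw [WeierstrassCurve.Affine.Point.neg_some, WeierstrassCurve.Affine.Point.some.injEq]
      constructor
      · rintro ⟨-, hy⟩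
        right
        have hy' : 2 * y + W.a₁ * x + W.a₃ = 0 := by
          unfold WeierstrassCurve.Affine.negY at hy
          linear_combination hy
        have h0 := (WeierstrassCurve.Affine.equation_iff' (W := W.toAffine) _ _).1 h.1
        have h1 := tr2_sq W e a b hR x y
        have h4 : y ^ 2 + W.a₁ * x * y + W.a₃ * y -
          (x ^ 3 + W.a₂ * x ^ 2 + W.a₄ * x + W.a₆) = 0 := h0
        rw [hy', h4, mul_zero, zero_add, zero_pow two_ne_zero] at h1
        have h5 := (mul_eq_zero.1 h1.symm).resolve_left (by norm_num)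
        have h6 : x = e := by
          rcases mul_eq_zero.1 h5 with h6 | h6
          · exact sub_eq_zero.1 h6
          · exact absurd ⟨2 * (x - e) + a, by linear_combination (-4) * h6⟩ hns
        subst h6
        exact ⟨y, h, rfl⟩
      · rintro (h1 | ⟨y', h', h1⟩)
        · exact absurd h1 (WeierstrassCurve.Affine.Point.some_ne_zero h)
        · rw [WeierstrassCurve.Affine.Point.some.injEq] at h1
          obtain ⟨rfl, rfl⟩ := h1
          refine ⟨rfl, ?_⟩
          have h2 := tr2_y W x a b hR y h'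
          unfold WeierstrassCurve.Affine.negY
          linear_combination h2
  have h1 := tr2_ns W e a b hR hb0
  have hb : ∀ y', W.toAffine.Nonsingular e y' → y' = -(W.a₁ * e + W.a₃) / 2 := by
    intro y' hy'
    have h2 := tr2_y W e a b hR _ hy'
    have h3 := tr2_y W e a b hR _ h1
    have h4 : 2 * y' = 2 * (-(W.a₁ * e + W.a₃) / 2) := by linear_combination h2 - h3
    exact mul_left_cancel₀ h20 h4
  refine ⟨ha, ⟨_, h1, tr2_y W e a b hR _ h1, hb⟩, ?_⟩
  have h3 : Nat.card (Option Unit) = 2 := by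
    rw [Nat.card_eq_fintype_card]
    rfl
  rw [← h3]
  symm
  refine Nat.card_congr (Equiv.ofBijective (fun o : Option Unit => match o with
    | none => (⟨0, add_zero 0⟩ : {P : W.toAffine.Point // P + P = 0})
    | some _ => ⟨.some e _ h1, (ha _).2 (Or.inr ⟨_, h1, rfl⟩)⟩) ⟨?_, ?_⟩)
  · rintro (_ | i) (_ | j) hij
    · rfl
    · exact absurd (congrArg Subtype.val hij).symm
        (WeierstrassCurve.Affine.Point.some_ne_zero h1)
    · exact absurd (congrArg Subtype.val hij)
        (WeierstrassCurve.Affine.Point.some_ne_zero h1)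
    · rfl
  · rintro ⟨P, hP⟩
    rcases (ha P).1 hP with rfl | ⟨y', h', rfl⟩
    · exact ⟨none, rfl⟩
    · refine ⟨some (), Subtype.ext ?_⟩
      have h4 := hb y' h'
      subst h4
      rfl

end Pool.Agent.G02.H21
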